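import Pool.Agent.Y516.NW.Fin
import Pool.Agent.Y438.NW.Pos

set_option autoImplicit false

open MeasureTheory

namespace Pool.Agent.Results.MP_70f7a7_an.NonwanderingMomenta

/-- The space `R³`. -/
abbrev R3 : Type := EuclideanSpace ℝ (Fin 3)

/-- Phase space: pairs (positions, momenta) of `N` bodies. -/
abbrev Phase (N : ℕ) : Type := (Fin N → R3) × (Fin N → R3)

/-- Kinetic energy of the momenta `p`. -/
noncomputable def kinetic {N : ℕ} (m : Fin N → ℝ) (p : Fin N → R3) : ℝ :=
  ∑ i, ‖p i‖ ^ 2 / (2 * m i)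

/-- The Newtonian potential `U(q) = ∑_{i<j} m_i m_j / |q_i - q_j|` (the energy is
kinetic energy minus `U`). -/
noncomputable def potential {N : ℕ} (m : Fin N → ℝ) (q : Fin N → R3) : ℝ :=
  ∑ i, ∑ j, m i * m j / ‖q i - q j‖ / 2

/-- The energy surface `H = E` of the reduced `N`-body problem (centre of mass `0`, total
momentum `0`, no collisions). -/
def surface {N : ℕ} (m : Fin N → ℝ) (E : ℝ) : Set (Phase N) :=
  {x | (∀ i j, i ≠ j → x.1 i ≠ x.1 j) ∧ ∑ i, m i • x.1 i = 0 ∧ ∑ i, x.2 i = 0 ∧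
    kinetic m x.2 - potential m x.1 = E}

/-- `φ` is the complete flow on the energy surface obtained from the `N`-body flow by a smooth
positive change of time `ψ`. -/
structure IsReparametrizedFlow {N : ℕ} (m : Fin N → ℝ) (E : ℝ) (ψ : Phase N → ℝ)
    (φ : ℝ → Phase N → Phase N) : Prop where
  /-- `ψ` is smooth outside collisions -/
  smooth : ContDiffOn ℝ ((⊤ : ℕ∞) : WithTop ℕ∞) ψ {x | ∀ i j, i ≠ j → x.1 i ≠ x.1 j}
  /-- `ψ` is positive outside collisions -/
  pos : ∀ x : Phase N, (∀ i j, i ≠ j → x.1 i ≠ x.1 j) → 0 < ψ x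
  /-- orbits exist for all times and solve the reparametrized equations of motion -/
  flow : ∀ x ∈ surface m E, φ 0 x = x ∧ ∀ t : ℝ, φ t x ∈ surface m E ∧
    HasDerivAt (fun s : ℝ => φ s x)
      (ψ (φ t x) • ((fun i => (m i)⁻¹ • (φ t x).2 i),
        (fun i => ∑ j, (m i * m j / ‖(φ t x).1 j - (φ t x).1 i‖ ^ 3) •
          ((φ t x).1 j - (φ t x).1 i)))) t

/-- `x` is a nonwandering point of the flow `φ` on the energy surface `S`. -/
def IsNonwandering {N : ℕ} (S : Set (Phase N)) (φ : ℝ → Phase N → Phase N) (x : Phase N) : Prop :=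
  ∀ V : Set (Phase N), IsOpen V → x ∈ V → ∀ T : ℝ, ∃ t : ℝ, T < t ∧ ∃ y ∈ V ∩ S, φ t y ∈ V

/-- The momenta `(P_1, ..., P_n, -P_1 - ... - P_n)` of `n + 1` bodies. -/
noncomputable def momenta {n : ℕ} (P : Fin n → R3) : Fin (n + 1) → R3 := Fin.snoc P (-∑ i, P i)

/-- The same momenta scaled so that their kinetic energy is `K`. -/
noncomputable def scaled {n : ℕ} (m : Fin (n + 1) → ℝ) (K : ℝ) (P : Fin n → R3) :
    Fin (n + 1) → R3 :=
  Real.sqrt (K / kinetic m (momenta P)) • momenta P

theorem result (n : ℕ) (hn : 2 ≤ n) (m : Fin (n + 1) → ℝ) (hm : ∀ i, 0 < m i) :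
    ∃ C : ℝ, 0 < C ∧ ∀ (E : ℝ) (ψ : Phase (n + 1) → ℝ)
      (φ : ℝ → Phase (n + 1) → Phase (n + 1)), IsReparametrizedFlow m E ψ φ →
      ∀ q : Fin (n + 1) → R3, (∀ i j, i ≠ j → q i ≠ q j) → ∑ i, m i • q i = 0 →
      0 < potential m q + E →
      ∀ a b : Fin (n + 1), a ≠ b → ∀ δ : ℝ, 0 < δ →
      (∀ i j, i ≠ j → ¬(i = a ∧ j = b) → ¬(i = b ∧ j = a) → δ ≤ ‖q i - q j‖) →
      volume {P : Fin n → R3 | kinetic m (momenta P) ≤ 1 ∧
          IsNonwandering (surface m E) φ (q, scaled m (potential m q + E) P)} ≤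
        ENNReal.ofReal (C / (δ * (potential m q + E))) *
          volume {P : Fin n → R3 | kinetic m (momenta P) ≤ 1} := by
  obtain ⟨C, hC, h⟩ := Pool.Agent.Y516.NW.prop_neg n hn m hm
  refine ⟨C, hC, ?_⟩
  intro E ψ φ hφ q hq hcen hK a b hab δ hδ hδq
  have hfl : Pool.Agent.Y516.NW.IsFl m E ψ φ := ⟨hφ.smooth.continuousOn, hφ.pos, hφ.flow⟩
  rcases le_or_gt E 0 with hE | hE
  · exact h E hE ψ φ hfl q hq hcen a b hab δ hδ (fun i j hP => hδq i j hP.1 hP.2.1 hP.2.2) hK
  · refine le_trans (le_of_eq ?_) (zero_le)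
    have hP := Pool.Agent.Y438.NW.pos (n + 1) m hm E hE ψ φ hfl
    refine measure_mono_null (t := {P : Fin n → R3 | P = 0}) ?_ ?_
    · rintro P ⟨_, hP2⟩
      by_contra hne
      have hkin0 : 0 ≤ kinetic m (momenta P) := Finset.sum_nonneg fun i _ => by
        have := hm i; positivity
      have hkin : 0 < kinetic m (momenta P) := by
        refine lt_of_le_of_ne hkin0 fun h0 => hne ?_
        have hz : ∀ i, momenta P i = 0 := by
          intro i
          have h1 := (Finset.sum_eq_zero_iff_of_nonneg (fun i _ => by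
            have := hm i; positivity)).mp h0.symm i (Finset.mem_univ i)
          have h2 : ‖momenta P i‖ ^ 2 = 0 := by
            rcases div_eq_zero_iff.mp h1 with h | h
            · exact h
            · have := hm i; linarith
          exact norm_eq_zero.mp (pow_eq_zero_iff (by norm_num) |>.mp h2)
        funext k
        have := hz k.castSucc
        simpa [momenta, Fin.snoc_castSucc] using this
      refine hP _ ?_ hP2
      refine ⟨hq, hcen, ?_, ?_⟩
      · have : ∑ i, (scaled m (potential m q + E) P) i =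
            Real.sqrt ((potential m q + E) / kinetic m (momenta P)) • ∑ i, momenta P i := by
          rw [Finset.smul_sum]; rfl
        show ∑ i, (scaled m (potential m q + E) P) i = 0
        rw [this]
        have h0 : ∑ i, momenta P i = 0 := Pool.Agent.Y516.NW.mom_sum P
        rw [h0, smul_zero]
      · have h1 : ∑ i, ‖(scaled m (potential m q + E) P) i‖ ^ 2 / (2 * m i) =
            (potential m q + E) / kinetic m (momenta P) * kinetic m (momenta P) := by
          rw [← Real.sq_sqrt (div_nonneg hK.le hkin0)]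
          simp only [kinetic]
          rw [Finset.mul_sum]
          refine Finset.sum_congr rfl fun i _ => ?_
          simp only [scaled, Pi.smul_apply, norm_smul, Real.norm_eq_abs, mul_pow, sq_abs]
          rw [mul_div_assoc]
          rfl
        show ∑ i, ‖(scaled m (potential m q + E) P) i‖ ^ 2 / (2 * m i) - potential m q = E
        rw [h1, div_mul_cancel₀ _ hkin.ne']
        ring
    · have h1 : {P : Fin n → R3 | P = 0} = {0} := rfl
      rw [h1]
      have h2 : Nonempty (Fin n) := ⟨⟨0, by omega⟩⟩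
      have h3 : (⊥ : Submodule ℝ (Fin n → R3)) ≠ ⊤ := bot_ne_top
      exact Measure.addHaar_submodule volume _ h3

end Pool.Agent.Results.MP_70f7a7_an.NonwanderingMomenta
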